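import Pool.Agent.Cells.A01.L

set_option autoImplicit false
set_option maxRecDepth 100000

namespace Pool.Agent.Cells.A01

open Helper49.Cell
open Helper54.RC.Fast (FP PF)
open Helper95.SH (CD nt pV rV sV)
open Helper42.SH (LBB Pieces)
open Helper43.CL (LB)
open Helper25.SH.Mat (Blk)
open Pool.Agent.Helper75.SH (WtR okW)
open Pool.Agent.Helper56.TS (TI)


/-! part 00 -/

section
def k_mul : Helper70.SH.okM R CD1 = true := by decide +kernel
def k_cs : Helper70.SH.okCs R = true := by decide +kernel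
def k_w : okW R T W = true := by decide +kernel

end

/-! part tabs -/

section
def k_t1 : Helper96.SH.okTM 175 165 76 20 1000 43 42 35 289413 R.D1 (P1.take 35) = true := by decide +kernel
def k_t2 : Helper96.SH.okTM 175 165 76 20 1000 43 42 35 289413 R.D2 (P2.take 35) = true := by decide +kernel
def k_r1 : Pool.Agent.Helper51.SH.okTR 175 76 1000 R.D1 P1 28 40 ts1 = true := by decide +kernel
def k_r2 : Pool.Agent.Helper51.SH.okTR 175 76 1000 R.D2 P2 28 40 ts2 = true := by decide +kernel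
def k_n : Helper96.SH.okN 175 76 80 289413 2093920942154385339393396 = true := by decide +kernel

theorem f_tab1 : Helper96.SH.TabOK 175 76 42 35 289413 (Helper76.RC.TrD.Dt 1000 R.D1) Q1 :=
  Helper76.SH.TabOK_of tab1 k_t1
theorem f_tab2 : Helper96.SH.TabOK 175 76 42 35 289413 (Helper76.RC.TrD.Dt 1000 R.D2) Q2 :=
  Helper76.SH.TabOK_of tab2 k_t2

end

/-! part u -/

section
def k_u : Pool.Agent.Helper64.SH.okU 127 117 56 2199023255552 190441000282079161 248 R.z v1 v2 = true := by decide +kernel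

end

/-! part zd -/

section
def k_z : zd.ok = true := by decide +kernel

end

/-! part low -/

section
def k_e1 : Pool.Agent.Helper51.SH.okTR 175 76 1000 R.D1 P1 55 40 [705] = true := by decide +kernel
def k_e2 : Pool.Agent.Helper51.SH.okTR 175 76 1000 R.D2 P2 55 40 [870] = true := by decide +kernel
def k_te : Pool.Agent.Helper51.SH.okTe R zd 248 55 56 [705] [870] = true := by decide +kernel
def k_s56 : Nat.beq zd.s 56 = true := by decide +kernel

/-- `TlE` of helper20, window `56` -/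
theorem f_tl (H0 : Helper70.SH.LocH) : Pool.Agent.Helper20.SH.TlE D 56 ((tl_nZ : ℝ) / 2 ^ 112) ((tl_nU : ℝ) / 2 ^ 112) 0
    ((tl_nE : ℝ) / 2 ^ 112) :=
  Pool.Agent.Helper51.SH.TlE_112 (z := zd) k_rec len k_mul H0 k_u (by decide) k_z tab1 tab2 k_e1 k_e2 k_te k_s56 rfl rfl rfl
theorem f_zok (H0 : Helper70.SH.LocH) : Pool.Agent.Helper20.SH.ZOk D := Pool.Agent.Helper51.SH.ZOk_rec k_rec len CD1.s H0

end

/-! part kap -/

section
def k_kap : Helper76.RC.TrD.okUp 96 86 1073741824 1000 2137 1 (Helper76.RC.TrD.evL R.D1 R.D2) qKap = true := by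
  decide +kernel
def k_kap2 : 86 ≤ 96 + 1 ∧ 200000 + 100 * (2137 + 1) ≤ T.kap4 := by decide +kernel

end

/-! part d2 -/

section
theorem d2_len : d2_X.length = n := Helper96.SH.colX_length R K (2 * H) d2_q d2_P1 d2_N1 d2_P2 d2_N2
theorem d2_lenY : d2_Y.length = n := Helper96.SH.colY_length R K (2 * H) d2_q d2_P1 d2_N1 d2_P2 d2_N2
def k_d2q : Helper96.SH.okQD R K (2 * H) d2_q = true := by decide +kernel
def e_d2 : (bif Helper42.SH.eqL litDX d2_X then Helper42.SH.eqL litDY d2_Y else false) = true := by decide +kernel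
theorem dX_eq : litDX = d2_X := Helper42.SH.eqL_sound (Helper42.SH.bift e_d2).1
theorem dY_eq : litDY = d2_Y := Helper42.SH.eqL_sound (Helper42.SH.bift e_d2).2
def k_d2L : Helper71.SH.okD2 d2_b bM 42 W d2_rX d2_rY litDX litDY = true := by decide +kernel
theorem k_d2 : Helper71.SH.okD2 d2_b bM 42 W d2_rX d2_rY d2_X d2_Y = true :=
  Helper42.SH.lit2 (f := Helper71.SH.okD2 d2_b bM 42 W d2_rX d2_rY) dX_eq dY_eq k_d2L

theorem d2_rows : (∀ k : ℕ, 2 * k + 2 ≤ d2_q.l1 →
      Helper95.SH.LR n (2 ^ 56) (fun v => (Helper95.SH.qk D N (pV K (2 * H) v) (rV K (2 * H) v) (sV K v) k).re)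
        (Helper25.SH.Mat.row d2_b (Helper96.SH.AL d2_b (2 * k + 2) d2_X d2_Y) 0) (d2_e : ℕ) ∧
      Helper95.SH.LR n (2 ^ 56) (fun v => (Helper95.SH.qk D N (pV K (2 * H) v) (rV K (2 * H) v) (sV K v) k).im)
        (Helper25.SH.Mat.row d2_b (Helper96.SH.AL d2_b (2 * k + 2) d2_X d2_Y) 1) (d2_e : ℕ)) ∧
    Helper95.SH.LR n (2 ^ 56)
      (fun v => D.P.nu / 2 * Helper95.SH.e0I D.P D.Th1 D.Th1' D.Th2 D.Th2' N (pV K (2 * H) v) (rV K (2 * H) v) (sV K v))
      (Helper25.SH.Mat.row d2_b d2_X 0) (d2_e : ℕ) :=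
  Helper96.SH.LR_rec k_rec len CD1.s (K := K) (H := H) (by decide) k_d2q f_tab1 f_tab2
    (tP1 := d2_P1) (tN1 := d2_N1) (tP2 := d2_P2) (tN2 := d2_N2) rfl rfl rfl rfl (X := d2_X) (Y := d2_Y) rfl rfl

theorem d2_dig0 : ∀ i < n, |(Helper25.SH.Mat.row d2_b d2_X 0 i : ℝ)| ≤ 2 ^ d2_r0 := Helper71.SH.dig_X d2_len k_d2

theorem d2_e0 : Helper95.SH.LR n (2 ^ 56)
      (fun v => D.P.nu / 2 * Helper95.SH.e0I D.P D.Th1 D.Th1' D.Th2 D.Th2' N (pV K (2 * H) v) (rV K (2 * H) v) (sV K v))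
      (Helper25.SH.Mat.row d2_b d2_X 0) (d2_e : ℕ) := d2_rows.2

theorem f_d2 : LBB bM n S (fun v => Helper42.SH.gD2 D K H N v W.k1 W.alf) B_d2 (E_d2 : ℝ) :=
  Helper71.SH.f_D2 k_rec len CD1.s d2_len d2_lenY k_d2 d2_rows.1

end

/-! part zab -/

section
def k_nfA : Pool.Agent.Helper77.NS.okTA R nfQ 34 = true := by decide +kernel
def k_nfB : Pool.Agent.Helper77.NS.okTB R nfQ 34 = true := by decide +kernel
def k_nfr : Helper85.NS.okR3 64 8179378680290567732005 = true := by decide +kernel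
theorem k_nfe : R.e1.natAbs + R.e2.natAbs ≤ 100000 := by decide

theorem f_zA : Helper85.NS.CR 175 64 n nf_N (fun v n => Helper95.SH.gA D N (pV K (2 * H) v) (rV K (2 * H) v) (sV K v) n)
    nf_zA 134 ∧ Helper85.NS.DB 175 n nf_N (2 ^ 71) nf_zA :=
  Pool.Agent.Helper77.NS.zA_R (q := nfQ) (by decide) (even_two_mul H) (le_max_left K (2 * H)) (le_max_right K (2 * H))
    le_rfl (W := 34) rfl (by decide) k_nfe k_nfA k_nfr
theorem f_zB : Helper85.NS.CR 175 64 n nf_N (fun v n => Helper95.SH.gB D N (pV K (2 * H) v) (rV K (2 * H) v) (sV K v) n)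
    nf_zB 134 ∧ Helper85.NS.DB 175 n nf_N (2 ^ 71) nf_zB :=
  Pool.Agent.Helper77.NS.zB_R (q := nfQ) (by decide) (even_two_mul H) (le_max_left K (2 * H)) (le_max_right K (2 * H))
    le_rfl (W := 34) rfl (by decide) k_nfe k_nfB k_nfr

end

/-! part nf -/

section
def k_nfs : Helper85.NS.okR3 56 31950697969885030203 = true := by decide +kernel
theorem f_nf : LBB bM n S (fun v => Helper42.SH.gNF D K H N v) B_nf ((E_nf : ℕ) : ℝ) :=
  Pool.Agent.Helper77.NS.LBB_NFz (K' := 31) (by decide) rfl (by decide) f_zA f_zB (by decide) (by decide) (by decide)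
    k_nfs k_nfe (by decide) (by decide) (by norm_num [S])

end

/-! part o1 -/

section
def k_o1 : Helper38.SH.okO bM M_o1 (Helper38.SH.odR R 56) = true := by decide +kernel
theorem f_o1 : LBB bM n S (fun v => Helper42.SH.gO1 D K H N v) B_o1 ((E_o1 : ℕ) : ℝ) :=
  Helper38.SH.LBB_O1 rfl (by decide) (le_max_right _ _) k_o1

end

/-! part pr -/

section
def k_pr1 : Pool.Agent.Helper2.PRk.okPR bM 57 K (2 * H) R = true := by decide +kernel
theorem f_pr : LBB bM n S (fun v => Helper42.SH.gPR D K H N v) B_pr (E_pr : ℝ) :=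
  Pool.Agent.Helper2.PRk.f_PR k_rec len CD1.s (by decide) (by decide) k_pr1 d2_len d2_dig0 d2_e0

end

/-! part lin -/

section
def k_lin : Helper43.CL.okLin R K (2 * H) bM 28 CD1.s 248 zd = true := by
  decide +kernel

theorem f_lin (H0 : Helper70.SH.LocH) :
    LBB bM n S (fun v => Helper42.SH.gLIN D K H N v) B_lin ((E_lin : ℕ) : ℝ) :=
  Helper43.CL.LBB_lin k_rec len (by decide) k_mul H0 k_u (by decide) k_z k_lin rfl

end

/-! part lo -/

section
def k_lo : Helper55.SH.okPc R bM 170 55 K H lo_T 60 = true := by decide +kernel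

theorem f_lo : LBB bM n S (fun v => Helper42.SH.gLO D K v) B_lo E_lo :=
  Helper55.SH.LBB_lo k_lo (Helper55.SH.isRec R k_rec len CD1.s) rfl (by decide) (show 12 ≤ K by decide)
theorem f_zp : LBB bM n S (fun v => Helper42.SH.gZP D K H v) B_zp E_zp :=
  Helper55.SH.LBB_zp k_lo (Helper55.SH.isRec R k_rec len CD1.s) rfl
theorem f_zr : LBB bM n S (fun v => Helper42.SH.gZR D K H v) B_zr E_zr :=
  Helper55.SH.LBB_zr k_lo (Helper55.SH.isRec R k_rec len CD1.s) rfl

end

/-! part bp -/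

section
def k_bd : Helper68.SH.okB R bM 55 bd_T = true := by decide +kernel

theorem f_bp : LBB bM n S (fun v => Helper42.SH.gBP D K H v) B_bp ((E_bp : ℕ) : ℝ) := Helper68.SH.f_bp k_rec len CD1.s k_bd
theorem f_br : LBB bM n S (fun v => Helper42.SH.gBR D K H v) B_br ((E_br : ℕ) : ℝ) := Helper68.SH.f_br k_rec len CD1.s k_bd

end

/-! part q -/

section
def k_q : Pool.Agent.Helper65.SH.okQ bM R.q 0 = true := by decide +kernel

theorem f_q : LBB bM n S (fun v => Helper42.SH.gQ D K v) B_q E_q := by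
  have h := Pool.Agent.Helper65.SH.q_LBB (b := bM) (K := K) (H := H) (by decide) k_q (c := D)
    (Helper70.SH.cd_Q R k_rec len CD1.s)
  have e : (S : ℝ) = 10 ^ 9 * (2 ^ 56 * 2 ^ 56) := by norm_num [S]
  rw [e]
  exact h

end

/-! part col -/

section
def k_ux : Pool.Agent.Helper64.SH.okU col_C.z.b 165 col_C.z.s 2305843009213693952 199691862311781438769664 334 R.z col_C.z.U1.z col_C.z.U2.z = true := by
  decide +kernel
def k_zx : col_C.z.ok = true := by decide +kernel
def k_col : col_C.ok R nf_zA nf_zB 12 N CD1.s 334 = true := by decide +kernel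
def k_colF : col_I.okF = true := by decide +kernel

theorem col_t1 : Pool.Agent.Helper51.SH.Tab col_C.p.b col_C.p.s 1000 R.D1 col_C.P1 := by delta col_C; dsimp only; exact tab1
theorem col_t2 : Pool.Agent.Helper51.SH.Tab col_C.p.b col_C.p.s 1000 R.D2 col_C.P2 := by delta col_C; dsimp only; exact tab2
theorem col_ok (H0 : Helper70.SH.LocH) : col_I.Ok D N :=
  Helper87.SH.CC.I_ok k_rec len k_mul H0 k_ux (by decide) k_zx col_t1 col_t2 f_zA f_zB k_col

end

/-! part x -/

section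
/-- the literal columns are the computed columns (helper31; helper42's Lit) -/
def e_x : Helper42.SH.eqL litX x_A = true := by decide +kernel
theorem x_eq : litX = x_A := Helper42.SH.eqL_sound e_x
def k_xL : Helper43.CL.okDig bM (List.replicate (4 * 13) 57) litX = true := by decide +kernel
theorem k_x : Helper43.CL.okDig bM (List.replicate (4 * 13) 57) x_A = true :=
  Helper42.SH.lit (f := Helper43.CL.okDig bM (List.replicate (4 * 13) 57)) x_eq k_xL

theorem f_x (H0 : Helper70.SH.LocH) :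
    LBB bM n S (fun v => Helper42.SH.gX D K H N v 13 T.tsc.tz) B_x ((E_x : ℕ) : ℝ) :=
  Helper87.SH.LBB_x (col_ok H0) rfl rfl rfl rfl rfl (Pool.Agent.Helper19.SH.CIn.XCf_eq (col_ok H0) k_colF)
    (Helper42.SH.cX_ok k_w) k_x rfl

end

/-! part y -/

section
/-- the literal columns are the computed columns (helper31; helper42's Lit) -/
def e_y : Helper42.SH.eqL litY y_A = true := by decide +kernel
theorem y_eq : litY = y_A := Helper42.SH.eqL_sound e_y
def k_yL : Helper43.CL.okDig bM (List.replicate (2 * 14) 58) litY = true := by decide +kernel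
theorem k_y : Helper43.CL.okDig bM (List.replicate (2 * 14) 58) y_A = true :=
  Helper42.SH.lit (f := Helper43.CL.okDig bM (List.replicate (2 * 14) 58)) y_eq k_yL

theorem f_y (H0 : Helper70.SH.LocH) :
    LBB bM n S (fun v => Helper42.SH.gY D K H N v 14
      (T.tsc.t2 - Pool.Agent.Helper75.SH.x2 T.tsc D ((W.bL : ℝ) / 1000))) B_y ((E_y : ℕ) : ℝ) :=
  Helper87.SH.LBB_y (col_ok H0) rfl rfl rfl rfl rfl
    (Pool.Agent.Helper19.SH.CIn.YCf_eq (col_ok H0).num k_colF) (Helper42.SH.y2 k_rec len CD1.s k_w).2 k_y rfl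

end

/-! part z -/

section
/-- the literal columns are the computed columns (helper31; helper42's Lit) -/
def e_z : Helper42.SH.eqL litZ z_A = true := by decide +kernel
theorem z_eq : litZ = z_A := Helper42.SH.eqL_sound e_z
def k_z_L : Helper43.CL.okDig bM (List.replicate (2 * 14) 58) litZ = true := by decide +kernel
theorem k_z_ : Helper43.CL.okDig bM (List.replicate (2 * 14) 58) z_A = true :=
  Helper42.SH.lit (f := Helper43.CL.okDig bM (List.replicate (2 * 14) 58)) z_eq k_z_L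

theorem f_z (H0 : Helper70.SH.LocH) :
    LBB bM n S (fun v => Helper42.SH.gZ D K H N v 14
      (T.tsc.t3 - Pool.Agent.Helper75.SH.x3 T.tsc D ((W.bL : ℝ) / 1000))) B_z ((E_z : ℕ) : ℝ) :=
  Helper87.SH.LBB_z (col_ok H0) rfl rfl rfl rfl rfl
    (Pool.Agent.Helper19.SH.CIn.ZCf_eq (col_ok H0).num k_colF) (Helper42.SH.y3 k_rec len CD1.s k_w).2 k_z_ rfl

end

/-! part dg -/

section
def k_pt : Pool.Agent.Helper57.SH.okPR R T.K T.L W.k1 pt_te 127 pt_E1 pt_E2 175 165 175 165 P1 P2 = true := by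
  decide +kernel
def k_fr : Helper42.SH.okFR R T dg_f 13 14 1050 42000 42000 127 117 12 = true := by decide +kernel

theorem f_PT (v : ℕ → ℝ) (v0 : v 0 = 1) :
    ∑' j : ℕ, (Pool.Agent.Helper20.RC.lk (j + W.k1) ^ 2 - 1) *
      ‖Helper95.SH.qk D (max T.K T.L) (pV T.K T.L v) (rV T.K T.L v) (sV T.K v) (j + W.k1)‖ ^ 2 ≤
      Pool.Agent.Helper57.SH.PTd D.P.nu ((W.alI : ℝ) / 1000) ((10 ^ 9 * 2 ^ 112 : ℕ) : ℝ) pt_D n v :=
  Pool.Agent.Helper57.SH.PT_rec k_rec len CD1.s k_w (by norm_num) (by norm_num) tab1 tab2 k_pt v v0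

theorem f_FR (H0 : Helper70.SH.LocH) : ∀ (N : ℕ) (v : ℕ → ℝ), v 0 = 1 →
    Pool.Agent.Helper75.SH.FARR D T.tsc ((W.bL : ℝ) / 1000) 13 14 N (max T.K T.L) (pV T.K T.L v) (rV T.K T.L v)
      (sV T.K v) ≤ dg_FR v :=
  Helper42.SH.FR_rec k_rec len CD1.s k_w k_fr (f_tl H0)

theorem f_dg : LB n S (fun v => Helper42.SH.gDG D.P.nu ((W.alI : ℝ) / 1000)
    (Pool.Agent.Helper57.SH.PTd D.P.nu ((W.alI : ℝ) / 1000) ((10 ^ 9 * 2 ^ 112 : ℕ) : ℝ) pt_D n) dg_FR v)
    (Helper25.SH.Mat.dgv n Pd Dd) ((E_dg : ℕ) : ℝ) :=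
  Helper42.SH.LB_DGr k_rec len CD1.s k_w pt_D dg_Df n

end

/-! part ts -/

section
def k_ts : Pool.Agent.Helper56.TS.okTS R T TCt = true := by decide +kernel

end

/-! part lam -/

section
def k_lam : Helper44.Far.okLam R 23 3 LV1 LV2 LT1 LT2 LX = true := by decide +kernel

theorem f_lam (l : List ℤ) : Helper70.SH.LamH R l := Helper70.SH.lamH_all (Helper44.Far.lam_all k_rec k_lam)

end

/-! part ht -/

section
def k_low : Pool.Agent.Helper51.SH.okLow W.M0 40 R.nu.toNat 100000 1000 T.dlow 100000 W.k0 ts1 ts2 W.ga = true := by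
  decide +kernel

theorem ht (H0 : Helper70.SH.LocH) :
    Pool.Agent.Helper75.SH.HTok D T.tsc (fun _ => T.tsc.kap4) W.alf W.bef W.gaf
      (Pool.Agent.Helper51.SH.wl 40 ts1 ts2) W.A ((W.alI : ℝ) / 1000) ((W.bL : ℝ) / 1000) ((R.d : ℝ) / 100000)
      ((R.k : ℝ) / 100000) R.cb.ph ((W.dl : ℝ) / 100000) W.k0 W.k1 W.M0 :=
  Pool.Agent.Helper75.SH.HTok_all k_rec len CD1.s H0 k_w k_ts k_kap2.1 k_kap k_kap2.2 tab1 tab2 k_r1 k_r2 k_low

end

end Pool.Agent.Cells.A01
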